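import Mathlib
import Pool.Agent.Helper449.RC.Exists
import Pool.Agent.Helper449.RC.Pi1

/-!
# A rationally connected almost Kähler manifold with infinite fundamental group

On `X = P¹ × P¹ × T²`, with the product symplectic form, there are a compatible almost complex
structure `J` and a homology class `A` such that any two points of `X` lie on a connected rational
`J`-holomorphic curve of class `A`. The fundamental group of `X` is infinite.
-/

open scoped Manifold ContDiff Topology
open Metric Set Bundle
open Pool.Agent.Helper206.Cover (R3 P1 cross EndoField)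
open Pool.Agent.Helper206.Rat (SymplecticForm AlmostComplex IsCompatible IsHolomorphic
  RationalCurve)
open Pool.Agent.Helper449.RC

noncomputable section

namespace Pool.Agent.Results.MP_3c8839_gt.InfiniteFundamentalGroup

section Statement

variable
  {E' : Type*} [NormedAddCommGroup E'] [NormedSpace ℝ E'] {H' : Type*} [TopologicalSpace H']
  {I' : ModelWithCorners ℝ E' H'} {S : Type} [TopologicalSpace S] [ChartedSpace H' S]

/-- `j` is the rotation by the angle `π / 2` of the tangent planes of the sphere `ι : S → R3`
about the outward normal: `dι (j w) = ι z × dι w` for `w` tangent to `S` at `z`. For the unit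
sphere, with `ι` the inclusion in `R3`, this is the complex structure of the Riemann sphere. -/
def IsRotation (ι : S → R3) (j : EndoField I' S) : Prop :=
  ∀ (z : S) (w : TangentSpace I' z), mvfderiv I' ι z (j z w) = cross (ι z) (mvfderiv I' ι z w)

section RC

variable {E : Type*} [NormedAddCommGroup E] [NormedSpace ℝ E] {H : Type*} [TopologicalSpace H]
  {I : ModelWithCorners ℝ E H} {X : Type} [TopologicalSpace X] [ChartedSpace H X]

/-- Hypothesis `(RC_A)` for `(X, J)`, where `σ : H₂(S; ℤ)` is the fundamental class of the sphere
`S`: any two points of `X` lie on a rational `J`-holomorphic curve of class `A`. -/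
def RC (j : EndoField I' S) (σ : H2 S) (J : AlmostComplex I X) (A : H2 X) : Prop :=
  ∀ x y : X, ∃ C : RationalCurve j J, x ∈ C.image ∧ y ∈ C.image ∧ curveClass C σ = A

/-- A strong form of the hypothesis: any two points of `X` lie on a rational `J`-holomorphic curve
which has exactly `n` components, all of them injective maps `S → X` and any two of them with
different images, and whose class is `A σ` for every choice of `σ : H₂(S; ℤ)` as fundamental
class of `S`. -/
def StrongRC (j : EndoField I' S) (J : AlmostComplex I X) (n : ℕ) (A : H2 S → H2 X) : Prop :=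
  ∀ x y : X, ∃ C : RationalCurve j J, x ∈ C.image ∧ y ∈ C.image ∧ C.n = n ∧
    (∀ a, Function.Injective (C.u a)) ∧
    (∀ a b, a ≠ b → range (C.u a) ≠ range (C.u b)) ∧
    ∀ σ : H2 S, curveClass C σ = A σ

end RC

/-- There are a compact connected manifold `X` without boundary, of dimension `6`, a symplectic
form `Ω` on `X` and an `Ω`-compatible almost complex structure `J` such that `(X, Ω, J)` satisfies
`(RC_A)` for some class `A` (whichever class `σ` is the fundamental class of the sphere), even in
the strong form with seven components, but `X` is not simply connected; its fundamental group is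
infinite. -/
def HasCounterexample (j : EndoField I' S) : Prop :=
    ∃ (E : Type) (_ : NormedAddCommGroup E) (_ : NormedSpace ℝ E) (_ : FiniteDimensional ℝ E)
      (H : Type) (_ : TopologicalSpace H) (I : ModelWithCorners ℝ E H) (_ : I.Boundaryless)
      (X : Type) (_ : TopologicalSpace X) (_ : ChartedSpace H X) (_ : IsManifold I ∞ X)
      (_ : CompactSpace X) (_ : T2Space X) (_ : SecondCountableTopology X) (_ : ConnectedSpace X)
      (Ω : SymplecticForm I X) (J : AlmostComplex I X),
      Module.finrank ℝ E = 6 ∧
      IsCompatible Ω J ∧
      (∀ σ : H2 S, ∃ A : H2 X, RC j σ J A) ∧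
      (∃ A : H2 S → H2 X, StrongRC j J 7 A) ∧
      ¬ SimplyConnectedSpace X ∧
      ∀ x : X, Infinite (FundamentalGroup X x)

end Statement

/-- The answer to the question is negative. Here `P¹` is the unit sphere `P1` of `R3`, with the
smooth structure of Mathlib and the complex structure `j w = z × w`. -/
theorem result :
    ∃ j : EndoField (𝓡 2) P1, IsRotation (fun z : P1 => (z : R3)) j ∧ HasCounterexample j := by
  have := pathConnectedSpace_P1
  have : SecondCountableTopology (ModelProd (EuclideanSpace ℝ (Fin 2))
      (ModelProd (EuclideanSpace ℝ (Fin 2)) (EuclideanSpace ℝ (Fin 2)))) :=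
    inferInstanceAs (SecondCountableTopology (EuclideanSpace ℝ (Fin 2) ×
      (EuclideanSpace ℝ (Fin 2) × EuclideanSpace ℝ (Fin 2))))
  refine ⟨Pool.Agent.Helper206.Cover.jP1, Pool.Agent.Helper206.Cover.dInc_jP1, E6, inferInstance,
    inferInstance, inferInstance,
    ModelProd (EuclideanSpace ℝ (Fin 2))
      (ModelProd (EuclideanSpace ℝ (Fin 2)) (EuclideanSpace ℝ (Fin 2))), inferInstance, I6,
    inferInstance, X6, inferInstance, inferInstance, inferInstance,
    inferInstance, inferInstance, ?_, inferInstance, Om6, K6, ?_, isCompatible_K6, ?_, ⟨clA, ?_⟩,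
    not_simplyConnected, infinite_pi1⟩
  · exact ChartedSpace.secondCountable_of_sigmaCompact
      (ModelProd (EuclideanSpace ℝ (Fin 2))
        (ModelProd (EuclideanSpace ℝ (Fin 2)) (EuclideanSpace ℝ (Fin 2)))) X6
  · simp [Module.finrank_prod]
  · intro σ
    refine ⟨clA σ, fun x y => ?_⟩
    obtain ⟨C, hx, hy, _, _, _, h⟩ := exists_curve x y
    exact ⟨C, hx, hy, h σ⟩
  · intro x y
    obtain ⟨C, hx, hy, hn, h1, h2, h3⟩ := exists_curve x y
    exact ⟨C, hx, hy, hn, h1, h2, h3⟩

end Pool.Agent.Results.MP_3c8839_gt.InfiniteFundamentalGroup
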